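import Mathlib

/-!
# Profinite CA-groups with generalized quaternion quotients

Let `Q` be the generalized quaternion group of order `2 ^ (s + 3)`, with central involution `z`, let
`Λ` be the group of all functions `v : Q → ℤ₂` with `v (z g) = - v g`, with `Q` acting by left
translation, and let `e : Q → {0, 2} ⊆ ℤ/4` be the homomorphism with kernel the cyclic maximal
subgroup. The group consists of all `(v, q)` in the semidirect product of `Λ` and `Q` with
`∑ v(g)² ≡ e(q)` modulo `4`.
-/

set_option autoImplicit false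

namespace Pool.Agent.Results.MP_427463_al.AllQuaternion

noncomputable section

open Topology QuaternionGroup

universe u

/-- `G` is a CA-group: the centralizer of every nontrivial element is abelian. -/
def IsCA (G : Type u) [Group G] : Prop :=
  ∀ x : G, x ≠ 1 → ∀ y z : G, x * y = y * x → x * z = z * x → y * z = z * y

/-- half the order of the cyclic maximal subgroup of the quaternion group -/
abbrev mm (s : ℕ) : ℕ := 2 ^ (s + 1)

/-- the generalized quaternion group of order `2 ^ (s + 3)` -/
abbrev QQ (s : ℕ) : Type := QuaternionGroup (mm s)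

instance (s : ℕ) : NeZero (mm s) := ⟨by positivity⟩

instance (s : ℕ) : NeZero (2 * mm s) := ⟨by positivity⟩

variable {s : ℕ}

/-- the central involution -/
def zz : QQ s := a (mm s : ZMod (2 * mm s))

theorem two_mm : (2 : ZMod (2 * mm s)) * (mm s : ZMod (2 * mm s)) = 0 := by
  have : ((2 * mm s : ℕ) : ZMod (2 * mm s)) = 0 := ZMod.natCast_self _
  exact_mod_cast this

theorem mm_add : (mm s : ZMod (2 * mm s)) + (mm s : ZMod (2 * mm s)) = 0 := by
  rw [← two_mul, two_mm]

theorem neg_mm : -(mm s : ZMod (2 * mm s)) = (mm s : ZMod (2 * mm s)) := by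
  linear_combination -(mm_add (s := s))

theorem mm_ne : (mm s : ZMod (2 * mm s)) ≠ 0 := by
  intro h
  rw [ZMod.natCast_eq_zero_iff] at h
  have h1 := Nat.le_of_dvd (by positivity) h
  have h2 : 0 < mm s := by positivity
  omega

theorem eq_mm {w : ZMod (2 * mm s)} (h0 : w ≠ 0) (h : 2 * w = 0) :
    w = (mm s : ZMod (2 * mm s)) := by
  have h1 : ((2 * w.val : ℕ) : ZMod (2 * mm s)) = 0 := by
    push_cast
    rw [ZMod.natCast_zmod_val]
    exact h
  rw [ZMod.natCast_eq_zero_iff] at h1
  have h2 : mm s ∣ w.val := Nat.dvd_of_mul_dvd_mul_left (by norm_num) h1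
  have h3 : w.val < 2 * mm s := ZMod.val_lt w
  have h4 : w.val ≠ 0 := fun h => h0 ((ZMod.val_eq_zero w).1 h)
  obtain ⟨t, ht⟩ := h2
  have h5 : t = 1 := by
    have hm : 0 < mm s := by positivity
    rcases Nat.lt_or_ge t 1 with h | h
    · interval_cases t
      exact absurd (by simpa using ht) h4
    · rcases Nat.lt_or_ge 1 t with h' | h'
      · exfalso
        have : mm s * 2 ≤ mm s * t := Nat.mul_le_mul_left _ h'
        omega
      · omega
  rw [← ZMod.natCast_zmod_val w, ht, h5, mul_one]

/-- every nonzero element has a multiple by a power of two which is the involution -/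
theorem exists_mult {i : ZMod (2 * mm s)} (hi : i ≠ 0) :
    ∃ N : ℕ, (2 : ZMod (2 * mm s)) ^ N * i = (mm s : ZMod (2 * mm s)) := by
  classical
  have hex : ∃ j : ℕ, (2 : ZMod (2 * mm s)) ^ j * i = 0 := by
    refine ⟨s + 2, ?_⟩
    have : (2 : ZMod (2 * mm s)) ^ (s + 2) = 0 := by
      have h1 : ((2 * mm s : ℕ) : ZMod (2 * mm s)) = 0 := ZMod.natCast_self _
      rw [← h1]
      push_cast
      ring
    rw [this, zero_mul]
  obtain ⟨j, hj⟩ : ∃ j, Nat.find hex = j + 1 := by
    refine ⟨Nat.find hex - 1, ?_⟩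
    have : Nat.find hex ≠ 0 := by
      intro h
      have := Nat.find_spec hex
      rw [h, pow_zero, one_mul] at this
      exact hi this
    omega
  refine ⟨j, eq_mm ?_ ?_⟩
  · exact Nat.find_min hex (by omega)
  · have := Nat.find_spec hex
    rw [hj, pow_succ'] at this
    rw [← mul_assoc]
    exact this

theorem a_pow (i : ZMod (2 * mm s)) (n : ℕ) : (a i : QQ s) ^ n = a ((n : ZMod (2 * mm s)) * i) := by
  induction n with
  | zero => rw [pow_zero, Nat.cast_zero, zero_mul, a_zero]
  | succ n ih => rw [pow_succ, ih, a_mul_a]; congr 1; push_cast; ring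

theorem zz_comm (q : QQ s) : zz * q = q * zz := by
  rcases q with i | i
  · show a _ * a i = a i * a _
    rw [a_mul_a, a_mul_a, add_comm]
  · show a _ * xa i = xa i * a _
    rw [a_mul_xa, xa_mul_a, sub_eq_add_neg, neg_mm]

theorem zz_sq : (zz : QQ s) * zz = 1 := by
  show a _ * a _ = _
  rw [a_mul_a, mm_add, a_zero]

theorem zz_inv : (zz : QQ s)⁻¹ = zz := inv_eq_of_mul_eq_one_left zz_sq

theorem zz_ne : (zz : QQ s) ≠ 1 := by
  intro h
  have h' : (a (mm s : ZMod (2 * mm s)) : QQ s) = a 0 := h
  exact mm_ne (QuaternionGroup.a.inj h')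

theorem xa_mul_self (i : ZMod (2 * mm s)) : (xa i : QQ s) * xa i = zz := by
  rw [xa_mul_xa, add_sub_cancel_right]; rfl

/-- every nontrivial element has a power equal to `z` -/
theorem exists_pow_zz {q : QQ s} (hq : q ≠ 1) : ∃ N : ℕ, q ^ N = zz := by
  rcases q with i | i
  · have hi : i ≠ 0 := fun h => hq (by rw [h, a_zero])
    obtain ⟨N, hN⟩ := exists_mult hi
    refine ⟨2 ^ N, ?_⟩
    rw [a_pow]
    push_cast
    rw [hN]
    rfl
  · exact ⟨2, by rw [pow_two, xa_mul_self]⟩

/-- the homomorphism to `{0, 2} ⊆ ℤ/4` with kernel the cyclic maximal subgroup -/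
def ee : QQ s → ZMod (2 ^ 2)
  | a _ => 0
  | xa _ => 2

theorem ee_mul (q r : QQ s) : ee (q * r) = ee q + ee r := by
  rcases q with i | i <;> rcases r with j | j
  · rw [a_mul_a]; rfl
  · rw [a_mul_xa]; rfl
  · rw [xa_mul_a]; rfl
  · rw [xa_mul_xa]; rfl

theorem ee_inv (q : QQ s) : ee q⁻¹ = ee q := by
  have h := ee_mul q q⁻¹
  rw [mul_inv_cancel] at h
  have h1 : ee (1 : QQ s) = 0 := rfl
  rw [h1] at h
  have h2 : ee q + ee q = 0 := by rcases q with i | i <;> rfl
  linear_combination -h - h2

/-! ### The module -/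

/-- the bilinear form -/
def B (v w : QQ s → ℤ_[2]) : ℤ_[2] := ∑ g, v g * w g

/-- left translation -/
def tr (q : QQ s) (v : QQ s → ℤ_[2]) : QQ s → ℤ_[2] := fun g => v (q⁻¹ * g)

/-- `v` is odd -/
def Odd (v : QQ s → ℤ_[2]) : Prop := ∀ g, v (zz * g) = - v g

theorem B_comm (v w : QQ s → ℤ_[2]) : B v w = B w v :=
  Finset.sum_congr rfl fun g _ => mul_comm _ _

theorem B_add_left (u v w : QQ s → ℤ_[2]) : B (u + v) w = B u w + B v w := by
  unfold B
  rw [← Finset.sum_add_distrib]
  exact Finset.sum_congr rfl fun g _ => by rw [Pi.add_apply]; ring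

theorem B_neg_left (v w : QQ s → ℤ_[2]) : B (-v) w = - B v w := by
  unfold B
  rw [← Finset.sum_neg_distrib]
  exact Finset.sum_congr rfl fun g _ => by rw [Pi.neg_apply]; ring

theorem B_add_right (u v w : QQ s → ℤ_[2]) : B u (v + w) = B u v + B u w := by
  rw [B_comm, B_add_left, B_comm v, B_comm w]

theorem B_neg_right (v w : QQ s → ℤ_[2]) : B v (-w) = - B v w := by
  rw [B_comm, B_neg_left, B_comm]

theorem B_tr (q : QQ s) (v w : QQ s → ℤ_[2]) : B (tr q v) (tr q w) = B v w :=
  Fintype.sum_equiv (Equiv.mulLeft q⁻¹) _ _ fun g => rfl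

theorem tr_mul (q r : QQ s) (v : QQ s → ℤ_[2]) : tr (q * r) v = tr q (tr r v) := by
  funext g
  simp only [tr, mul_inv_rev, mul_assoc]

theorem tr_one (v : QQ s → ℤ_[2]) : tr 1 v = v := by
  funext g
  simp only [tr, inv_one, one_mul]

theorem tr_add (q : QQ s) (v w : QQ s → ℤ_[2]) : tr q (v + w) = tr q v + tr q w := rfl

theorem tr_neg (q : QQ s) (v : QQ s → ℤ_[2]) : tr q (-v) = - tr q v := rfl

theorem tr_zero (q : QQ s) : tr q (0 : QQ s → ℤ_[2]) = 0 := rfl

theorem tr_zz {v : QQ s → ℤ_[2]} (hv : Odd v) : tr zz v = -v := by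
  funext g
  simp only [tr, zz_inv, Pi.neg_apply]
  exact hv g

theorem Odd.tr {v : QQ s → ℤ_[2]} (hv : Odd v) (q : QQ s) : Odd (tr q v) := by
  intro g
  show v (q⁻¹ * (zz * g)) = - v (q⁻¹ * g)
  rw [← mul_assoc, ← zz_comm, mul_assoc, hv]

theorem Odd.add {v w : QQ s → ℤ_[2]} (hv : Odd v) (hw : Odd w) : Odd (v + w) := by
  intro g
  rw [Pi.add_apply, Pi.add_apply, hv g, hw g]
  ring

theorem Odd.neg {v : QQ s → ℤ_[2]} (hv : Odd v) : Odd (-v) := by
  intro g
  rw [Pi.neg_apply, Pi.neg_apply, hv g]

/-- The form is even on odd functions. -/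
theorem B_even {v w : QQ s → ℤ_[2]} (hv : Odd v) (hw : Odd w) : ∃ t, B v w = 2 * t := by
  have h1 : (PadicInt.toZMod (B v w) : ZMod 2) = 0 := by
    unfold B
    rw [map_sum]
    refine Finset.sum_involution (fun g _ => zz * g) ?_ ?_ (fun g _ => Finset.mem_univ _) ?_
    · intro g _
      rw [hv g, hw g, neg_mul_neg]
      exact CharTwo.add_self_eq_zero _
    · intro g _ _ h
      exact zz_ne (mul_eq_right.1 h)
    · intro g _
      rw [← mul_assoc, zz_sq, one_mul]
  have h2 : B v w ∈ RingHom.ker (PadicInt.toZMod : ℤ_[2] →+* ZMod 2) := h1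
  rw [PadicInt.ker_toZMod, PadicInt.maximalIdeal_eq_span_p, Ideal.mem_span_singleton] at h2
  obtain ⟨t, ht⟩ := h2
  exact ⟨t, by rw [ht]; norm_num⟩

theorem two_ne : (2 : ℤ_[2]) ≠ 0 := by exact_mod_cast (two_ne_zero : (2 : ℕ) ≠ 0)

/-- an element of order four acts without fixed vectors, and moves every vector to an orthogonal
one -/
theorem B_sq_zz {q : QQ s} (hq : q * q = zz) {v : QQ s → ℤ_[2]} (hv : Odd v) :
    B v (tr q v) = 0 := by
  have h1 : B v (tr q v) = B (tr q v) (tr q (tr q v)) := (B_tr q _ _).symm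
  rw [← tr_mul, hq, tr_zz hv, B_neg_right, B_comm (tr q v) v] at h1
  have h2 : 2 * B v (tr q v) = 0 := by linear_combination h1
  exact (mul_eq_zero.1 h2).resolve_left two_ne

theorem eq_zero_of_fixed {q : QQ s} (hq : q ≠ 1) {v : QQ s → ℤ_[2]} (hv : Odd v)
    (h : tr q v = v) : v = 0 := by
  obtain ⟨N, hN⟩ := exists_pow_zz hq
  have h1 : ∀ n : ℕ, tr (q ^ n) v = v := by
    intro n
    induction n with
    | zero => rw [pow_zero, tr_one]
    | succ n ih => rw [pow_succ, tr_mul, h, ih]
  have h2 := h1 N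
  rw [hN, tr_zz hv] at h2
  funext g
  have h3 := congrFun h2 g
  rw [Pi.neg_apply] at h3
  have h4 : 2 * v g = 0 := by linear_combination -h3
  exact (mul_eq_zero.1 h4).resolve_left two_ne

/-- reduction modulo 4 -/
abbrev r4 : ℤ_[2] →+* ZMod (2 ^ 2) := PadicInt.toZModPow 2

/-! ### The group -/

/-- the group of the example -/
@[ext] structure E (s : ℕ) where
  /-- the translation part -/
  v : QQ s → ℤ_[2]
  /-- the linear part -/
  q : QQ s
  odd : Odd v
  cond : r4 (B v v) = ee q

theorem cond_mul {v w : QQ s → ℤ_[2]} {q r : QQ s} (hv : Odd v) (hw : Odd w)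
    (h1 : r4 (B v v) = ee q) (h2 : r4 (B w w) = ee r) :
    r4 (B (v + tr q w) (v + tr q w)) = ee (q * r) := by
  obtain ⟨t, ht⟩ := B_even hv (hw.tr q)
  have h3 : B (v + tr q w) (v + tr q w) = B v v + B w w + 4 * t := by
    rw [B_add_left, B_add_right, B_add_right, B_tr, B_comm (tr q w) v, ht]
    ring
  have h4 : r4 (4 : ℤ_[2]) = 0 := by
    have : r4 (4 : ℤ_[2]) = ((4 : ℕ) : ZMod (2 ^ 2)) := by
      rw [← map_natCast r4]; norm_num
    rw [this]
    rfl
  rw [h3, map_add, map_add, map_mul, h4, zero_mul, add_zero, h1, h2, ee_mul]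

instance : Mul (E s) where
  mul x y :=
    { v := x.v + tr x.q y.v
      q := x.q * y.q
      odd := x.odd.add (y.odd.tr x.q)
      cond := cond_mul x.odd y.odd x.cond y.cond }

theorem mul_v (x y : E s) : (x * y).v = x.v + tr x.q y.v := rfl
theorem mul_q (x y : E s) : (x * y).q = x.q * y.q := rfl

instance : One (E s) where
  one := { v := 0, q := 1, odd := fun g => by simp, cond := by simp [B]; rfl }

theorem one_v : (1 : E s).v = 0 := rfl
theorem one_q : (1 : E s).q = 1 := rfl

instance : Inv (E s) where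
  inv x :=
    { v := -tr x.q⁻¹ x.v
      q := x.q⁻¹
      odd := (x.odd.tr _).neg
      cond := by rw [B_neg_left, B_neg_right, neg_neg, B_tr, x.cond, ee_inv] }

theorem inv_v (x : E s) : (x⁻¹).v = -tr x.q⁻¹ x.v := rfl
theorem inv_q (x : E s) : (x⁻¹).q = x.q⁻¹ := rfl

instance : Group (E s) where
  mul_assoc x y z := by
    apply E.ext
    · rw [mul_v, mul_v, mul_v, mul_v, mul_q, tr_mul, tr_add, add_assoc]
    · rw [mul_q, mul_q, mul_q, mul_q, mul_assoc]
  one_mul x := by
    apply E.ext
    · rw [mul_v, one_v, one_q, tr_one, zero_add]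
    · rw [mul_q, one_q, one_mul]
  mul_one x := by
    apply E.ext
    · rw [mul_v, one_v, tr_zero, add_zero]
    · rw [mul_q, one_q, mul_one]
  inv_mul_cancel x := by
    apply E.ext
    · rw [mul_v, inv_v, inv_q, one_v, neg_add_cancel]
    · rw [mul_q, inv_q, one_q, inv_mul_cancel]

/-- the projection to the quaternion group -/
def pr : E s →* QQ s where
  toFun x := x.q
  map_one' := rfl
  map_mul' _ _ := rfl

theorem pow_q (x : E s) (n : ℕ) : (x ^ n).q = x.q ^ n := map_pow pr x n

/-- commuting with an element of the kernel -/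
theorem q_eq_one_of_comm {x y : E s} (hx1 : x.q = 1) (hx : x ≠ 1) (h : x * y = y * x) :
    y.q = 1 := by
  by_contra hy
  apply hx
  refine E.ext (eq_zero_of_fixed hy x.odd ?_) hx1
  have h1 := congrArg E.v h
  rw [mul_v, mul_v, hx1, tr_one, add_comm] at h1
  exact (add_left_cancel h1).symm

theorem comm_of_q_one {y z : E s} (hy : y.q = 1) (hz : z.q = 1) : y * z = z * y := by
  apply E.ext
  · rw [mul_v, mul_v, hy, hz, tr_one, tr_one, add_comm]
  · rw [mul_q, mul_q, hy, hz]

/-- two elements commuting with an element outside the kernel commute if their projections do -/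
theorem comm_of_q_comm {x y z : E s} (hx : x.q ≠ 1) (hxy : x * y = y * x) (hxz : x * z = z * x)
    (h : y.q * z.q = z.q * y.q) : y * z = z * y := by
  have hc1 : Commute x y := hxy
  have hc2 : Commute x z := hxz
  have hc : Commute x (y * z * (z * y)⁻¹) :=
    (hc1.mul_right hc2).mul_right (hc2.mul_right hc1).inv_right
  have h2 : (y * z * (z * y)⁻¹).q = 1 := by
    rw [mul_q, inv_q, mul_q, mul_q, h, mul_inv_cancel]
  by_cases h3 : y * z * (z * y)⁻¹ = 1
  · exact mul_inv_eq_one.1 h3
  · exact absurd (q_eq_one_of_comm h2 h3 hc.symm.eq) hx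

/-- the main point: no nonabelian centralizer of an involution -/
theorem main {x b b' : E s} (hx : x.q = zz) (hb : x * b = b * x) (hb' : x * b' = b' * x)
    {k l : ZMod (2 * mm s)} (hbq : b.q = a l) (hl : a l * a l = (zz : QQ s))
    (hbq' : b'.q = xa k) : False := by
  have key : ∀ y : E s, x * y = y * x → y.v + y.v = x.v + - tr y.q x.v := by
    intro y h
    have h1 := congrArg E.v h
    rw [mul_v, mul_v, hx, tr_zz y.odd] at h1
    funext g
    have h2 := congrFun h1 g
    simp only [Pi.add_apply, Pi.neg_apply] at h2 ⊢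
    linear_combination -h2
  have hc2 : b.q * b.q = zz := by rw [hbq]; exact hl
  have hr2 : b'.q * b'.q = zz := by rw [hbq', xa_mul_self]
  have hcr2 : (b.q * b'.q) * (b.q * b'.q) = zz := by
    rw [hbq, hbq', a_mul_xa, xa_mul_self]
  -- `x.v = b.v + c b.v`
  have h1 := key b hb
  have hu : x.v = b.v + tr b.q b.v := by
    have h2 : tr b.q (b.v + b.v) = tr b.q (x.v + - tr b.q x.v) := by rw [h1]
    rw [tr_add, tr_add, tr_neg, ← tr_mul, hc2, tr_zz x.odd] at h2
    funext g
    have h3 := congrFun h1 g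
    have h4 := congrFun h2 g
    simp only [Pi.add_apply, Pi.neg_apply] at h3 h4 ⊢
    apply mul_left_cancel₀ two_ne
    linear_combination -h3 - h4
  -- `2 b' = (1 + c) b - (1 - c) r b`
  have h2 := key b' hb'
  have hrc : b'.q * b.q = zz * (b.q * b'.q) := by
    have e1 : b.q * b'.q = zz * (b'.q * b.q) := by
      rw [hbq, hbq', a_mul_xa, xa_mul_a]
      show _ = a _ * xa _
      rw [a_mul_xa]
      congr 1
      have hl' : l + l = (mm s : ZMod (2 * mm s)) := by
        rw [a_mul_a] at hl
        exact QuaternionGroup.a.inj hl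
      linear_combination -hl'
    rw [e1, ← mul_assoc, zz_sq, one_mul]
  have h3 : b'.v + b'.v = (b.v + tr b.q b.v) + -(tr b'.q b.v + - tr (b.q * b'.q) b.v) := by
    rw [h2, hu, tr_add, ← tr_mul, hrc, tr_mul, tr_zz (b.odd.tr _)]
  -- compute the form
  have hbo := b.odd
  have o1 : B b.v (tr b.q b.v) = 0 := B_sq_zz hc2 hbo
  have o2 : B b.v (tr b'.q b.v) = 0 := B_sq_zz hr2 hbo
  have o3 : B b.v (tr (b.q * b'.q) b.v) = 0 := B_sq_zz hcr2 hbo
  have o4 : B (tr b.q b.v) (tr (b.q * b'.q) b.v) = 0 := by rw [tr_mul, B_tr, o2]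
  have o5 : B (tr b.q b.v) (tr b'.q b.v) = 0 := by
    have e : tr b'.q b.v = - tr b.q (tr (b.q * b'.q) b.v) := by
      rw [← tr_mul, ← mul_assoc, hc2, tr_mul, tr_zz (b.odd.tr _), neg_neg]
    rw [e, B_neg_right, B_tr, o3, neg_zero]
  have o6 : B (tr b'.q b.v) (tr (b.q * b'.q) b.v) = 0 := by
    have e : tr (b.q * b'.q) b.v = - tr b'.q (tr b.q b.v) := by
      rw [← tr_mul b'.q b.q, hrc, tr_mul zz (b.q * b'.q), tr_zz (b.odd.tr _), neg_neg]
    rw [e, B_neg_right, B_tr, o1, neg_zero]
  have h4 : B (b'.v + b'.v) (b'.v + b'.v) = 4 * B b.v b.v := by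
    rw [h3]
    simp only [B_add_left, B_add_right, B_neg_left, B_neg_right, B_comm (tr b.q b.v) b.v,
      B_comm (tr b'.q b.v) b.v, B_comm (tr (b.q * b'.q) b.v) b.v,
      B_comm (tr b'.q b.v) (tr b.q b.v), B_comm (tr (b.q * b'.q) b.v) (tr b.q b.v),
      B_comm (tr (b.q * b'.q) b.v) (tr b'.q b.v), o1, o2, o3, o4, o5, o6, B_tr]
    ring
  have h5 : B b'.v b'.v = B b.v b.v := by
    have h6 : B (b'.v + b'.v) (b'.v + b'.v) = 4 * B b'.v b'.v := by
      rw [B_add_left, B_add_right]
      ring
    have h7 : (2 : ℤ_[2]) * (2 * B b'.v b'.v) = 2 * (2 * B b.v b.v) := by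
      linear_combination h4 - h6
    exact mul_left_cancel₀ two_ne (mul_left_cancel₀ two_ne h7)
  have h8 := b.cond
  have h9 := b'.cond
  rw [hbq] at h8
  rw [hbq', h5, h8] at h9
  have h10 : (0 : ZMod (2 ^ 2)) = 2 := h9
  exact absurd h10 (by decide)

theorem exists_half {b x : E s} {l : ZMod (2 * mm s)} (hb : b.q = a l) (hl : 2 * l ≠ 0)
    (hx : x * b = b * x) : ∃ (b₁ : E s) (l₁ : ZMod (2 * mm s)), x * b₁ = b₁ * x ∧ b₁.q = a l₁ ∧
      (a l₁ : QQ s) * a l₁ = zz := by
  obtain ⟨N, hN⟩ := exists_mult hl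
  refine ⟨b ^ 2 ^ N, (2 : ZMod (2 * mm s)) ^ N * l, ?_, ?_, ?_⟩
  · exact (Commute.pow_right hx _).eq
  · rw [pow_q, hb, a_pow, Nat.cast_pow, Nat.cast_ofNat]
  · rw [a_mul_a]
    show a _ = a _
    congr 1
    linear_combination hN

theorem isCA : IsCA (E s) := by
  intro x hx y w hy hw
  by_cases hx1 : x.q = 1
  · exact comm_of_q_one (q_eq_one_of_comm hx1 hx hy) (q_eq_one_of_comm hx1 hx hw)
  apply comm_of_q_comm hx1 hy hw
  have hyq : x.q * y.q = y.q * x.q := congrArg E.q hy
  have hwq : x.q * w.q = w.q * x.q := congrArg E.q hw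
  by_cases hxz : x.q = zz
  · -- the centralizer of an involution
    by_contra hne
    have key : ∀ y w : E s, x * y = y * x → x * w = w * x → ∀ l k : ZMod (2 * mm s),
        y.q = a l → w.q = xa k → 2 * l ≠ 0 → False := by
      intro y w hy hw l k hyl hwk hl
      obtain ⟨b₁, l₁, h1, h2, h3⟩ := exists_half hyl hl hy
      exact main hxz h1 hw h2 h3 hwk
    rcases hyi : y.q with i | i
    · rcases hwj : w.q with j | j
      · apply hne
        rw [hyi, hwj, a_mul_a, a_mul_a, add_comm]
      · refine key y w hy hw i j hyi hwj ?_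
        intro h0
        apply hne
        rw [hyi, hwj, a_mul_xa, xa_mul_a]
        congr 1
        linear_combination -h0
    · rcases hwj : w.q with j | j
      · refine key w y hw hy j i hwj hyi ?_
        intro h0
        apply hne
        rw [hyi, hwj, a_mul_xa, xa_mul_a]
        congr 1
        linear_combination h0
      · have hyw : x * (y * w) = (y * w) * x := by
          have c1 : Commute x y := hy
          have c2 : Commute x w := hw
          exact (c1.mul_right c2).eq
        refine key (y * w) w hyw hw _ j (by rw [mul_q, hyi, hwj, xa_mul_xa]) hwj ?_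
        intro h0
        apply hne
        rw [hyi, hwj, xa_mul_xa, xa_mul_xa]
        congr 1
        linear_combination h0 - two_mm (s := s)
  · rcases hxi : x.q with i | i
    · -- `x.q` is in the cyclic maximal subgroup, not central
      have hi : 2 * i ≠ 0 := by
        intro h0
        by_cases hi0 : i = 0
        · exact hx1 (by rw [hxi, hi0, a_zero])
        · exact hxz (by rw [hxi, eq_mm hi0 h0]; rfl)
      have key : ∀ r : QQ s, x.q * r = r * x.q → ∃ j, r = a j := by
        intro r hr
        rcases r with j | j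
        · exact ⟨j, rfl⟩
        · exfalso
          rw [hxi, a_mul_xa, xa_mul_a] at hr
          have := QuaternionGroup.xa.inj hr
          exact hi (by linear_combination -this)
      obtain ⟨j, hj⟩ := key _ hyq
      obtain ⟨k, hk⟩ := key _ hwq
      rw [hj, hk, a_mul_a, a_mul_a, add_comm]
    · have key : ∀ r : QQ s, x.q * r = r * x.q →
          (∃ j, r = a j ∧ 2 * j = 0) ∨ ∃ j, r = xa j ∧ 2 * (j - i) = 0 := by
        intro r hr
        rcases r with j | j
        · left
          rw [hxi, a_mul_xa, xa_mul_a] at hr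
          have := QuaternionGroup.xa.inj hr
          exact ⟨j, rfl, by linear_combination this⟩
        · right
          rw [hxi, xa_mul_xa, xa_mul_xa] at hr
          have := QuaternionGroup.a.inj hr
          exact ⟨j, rfl, by linear_combination this⟩
      rcases key _ hyq with ⟨j, hj, hj2⟩ | ⟨j, hj, hj2⟩ <;>
      rcases key _ hwq with ⟨k, hk, hk2⟩ | ⟨k, hk, hk2⟩
      · rw [hj, hk, a_mul_a, a_mul_a, add_comm]
      · rw [hj, hk, a_mul_xa, xa_mul_a]
        congr 1
        linear_combination -hj2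
      · rw [hj, hk, a_mul_xa, xa_mul_a]
        congr 1
        linear_combination hk2
      · rw [hj, hk, xa_mul_xa, xa_mul_xa]
        congr 1
        linear_combination hk2 - hj2

/-! ### The topology -/

instance : TopologicalSpace (QQ s) := ⊥

instance : DiscreteTopology (QQ s) := ⟨rfl⟩

/-- the coordinates -/
def coord (x : E s) : (QQ s → ℤ_[2]) × QQ s := (x.v, x.q)

theorem coord_inj : Function.Injective (coord (s := s)) := by
  intro x y h
  exact E.ext (congrArg Prod.fst h) (congrArg Prod.snd h)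

instance : TopologicalSpace (E s) := TopologicalSpace.induced coord inferInstance

theorem emb : IsEmbedding (coord (s := s)) := ⟨⟨rfl⟩, coord_inj⟩

theorem cont_v : Continuous (E.v (s := s)) := continuous_fst.comp emb.continuous

theorem cont_q : Continuous (E.q (s := s)) := continuous_snd.comp emb.continuous

theorem cont_tr : Continuous fun p : QQ s × (QQ s → ℤ_[2]) => tr p.1 p.2 := by
  refine continuous_pi fun g => ?_
  rw [continuous_prod_of_discrete_left]
  intro q
  exact continuous_apply (q⁻¹ * g)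

instance : IsTopologicalGroup (E s) where
  continuous_mul := by
    rw [emb.continuous_iff]
    refine Continuous.prodMk ?_ ?_
    · show Continuous fun x : E s × E s => x.1.v + tr x.1.q x.2.v
      exact (cont_v.comp continuous_fst).add
        (cont_tr.comp ((cont_q.comp continuous_fst).prodMk (cont_v.comp continuous_snd)))
    · show Continuous fun x : E s × E s => x.1.q * x.2.q
      exact (cont_q.comp continuous_fst).mul (cont_q.comp continuous_snd)
  continuous_inv := by
    rw [emb.continuous_iff]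
    refine Continuous.prodMk ?_ ?_
    · show Continuous fun x : E s => - tr x.q⁻¹ x.v
      exact (cont_tr.comp (cont_q.inv.prodMk cont_v)).neg
    · show Continuous fun x : E s => x.q⁻¹
      exact cont_q.inv

theorem cont_r4 : Continuous (r4 : ℤ_[2] → ZMod (2 ^ 2)) := by
  rw [continuous_discrete_rng]
  intro b
  rw [Metric.isOpen_iff]
  intro z hz
  refine ⟨(2 : ℝ) ^ (-(2 : ℕ) : ℤ), by positivity, fun y hy => ?_⟩
  rw [Metric.mem_ball, dist_eq_norm] at hy
  have h1 := (PadicInt.norm_le_pow_iff_mem_span_pow (p := 2) (y - z) 2).1 hy.le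
  have h2 : y - z ∈ RingHom.ker (r4 : ℤ_[2] →+* ZMod (2 ^ 2)) := by
    rw [PadicInt.ker_toZModPow]
    exact h1
  have h3 : r4 y - r4 z = 0 := by rw [← map_sub]; exact h2
  rw [Set.mem_preimage, Set.mem_singleton_iff, sub_eq_zero.1 h3]
  exact hz

theorem range_coord : Set.range (coord (s := s)) =
    {p | ∀ g, p.1 (zz * g) = - p.1 g} ∩ {p | r4 (B p.1 p.1) = ee p.2} := by
  ext p
  constructor
  · rintro ⟨x, rfl⟩
    exact ⟨x.odd, x.cond⟩
  · rintro ⟨h1, h2⟩
    exact ⟨⟨p.1, p.2, h1, h2⟩, rfl⟩

theorem closedEmb : IsClosedEmbedding (coord (s := s)) := by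
  refine ⟨emb, ?_⟩
  rw [range_coord]
  refine IsClosed.inter ?_ ?_
  · rw [Set.setOf_forall]
    exact isClosed_iInter fun g => isClosed_eq (by fun_prop) (by fun_prop)
  · refine isClosed_eq (cont_r4.comp ?_) ?_
    · unfold B
      fun_prop
    · exact (continuous_of_discreteTopology (f := ee (s := s))).comp continuous_snd

instance : CompactSpace (E s) := closedEmb.compactSpace

instance : T2Space (E s) := emb.t2Space

instance : TotallyDisconnectedSpace (E s) :=
  ⟨emb.isTotallyDisconnected (isTotallyDisconnected_of_totallyDisconnectedSpace _)⟩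

/-- a vector of norm two -/
def v2 : QQ s → ℤ_[2] := fun g => if g = 1 then 1 else if g = zz then -1 else 0

theorem v2_odd : Odd (v2 (s := s)) := by
  intro g
  unfold v2
  by_cases h1 : g = 1
  · subst h1
    rw [mul_one, if_neg zz_ne, if_pos rfl, if_pos rfl]
  · by_cases h2 : g = zz
    · subst h2
      rw [zz_sq, if_pos rfl, if_neg zz_ne, if_pos rfl, neg_neg]
    · have h3 : zz * g ≠ 1 := by
        intro h
        apply h2
        rw [← zz_inv]
        exact (inv_eq_of_mul_eq_one_right h).symm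
      have h4 : zz * g ≠ zz := by
        intro h
        exact h1 (mul_eq_left.1 h)
      rw [if_neg h3, if_neg h4, if_neg h1, if_neg h2, neg_zero]

theorem B_v2 : B (v2 (s := s)) v2 = 2 := by
  unfold B
  have h : ∀ g : QQ s, v2 g * v2 g = (if g = 1 then 1 else 0) + (if g = zz then 1 else 0) := by
    intro g
    unfold v2
    by_cases h1 : g = 1
    · subst h1
      simp [zz_ne.symm]
    · by_cases h2 : g = zz
      · subst h2
        simp [zz_ne]
      · simp [h1, h2]
  simp_rw [h, Finset.sum_add_distrib, Finset.sum_ite_eq', Finset.mem_univ, if_true]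
  norm_num

theorem pr_surjective : Function.Surjective (pr (s := s)) := by
  intro q
  rcases q with i | i
  · refine ⟨⟨0, a i, fun g => by simp, ?_⟩, rfl⟩
    simp [B]
    rfl
  · refine ⟨⟨v2, xa i, v2_odd, ?_⟩, rfl⟩
    rw [B_v2, map_ofNat]
    rfl

/-- **For every `n ≥ 3` there is a profinite CA-group `G` with a closed abelian normal subgroup `N`
such that `G ⧸ N` is the generalized quaternion group of order `2 ^ n`.** -/
theorem result : ∀ n : ℕ, 3 ≤ n →
    ∃ (G : Type) (_ : Group G) (_ : TopologicalSpace G), IsTopologicalGroup G ∧ CompactSpace G ∧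
      T2Space G ∧ TotallyDisconnectedSpace G ∧ IsCA G ∧
      ∃ (N : Subgroup G) (_ : N.Normal), IsClosed (N : Set G) ∧
        (∀ x ∈ N, ∀ y ∈ N, x * y = y * x) ∧
        Nat.card (QuaternionGroup (2 ^ (n - 2))) = 2 ^ n ∧
        Nonempty (G ⧸ N ≃* QuaternionGroup (2 ^ (n - 2))) := by
  intro n hn
  obtain ⟨s, rfl⟩ : ∃ s, n = s + 3 := ⟨n - 3, by omega⟩
  have hs : s + 3 - 2 = s + 1 := by omega
  rw [hs]
  refine ⟨E s, inferInstance, inferInstance, inferInstance, inferInstance, inferInstance,
    inferInstance, isCA, pr.ker, inferInstance, ?_, ?_, ?_,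
    ⟨QuotientGroup.quotientKerEquivOfSurjective pr pr_surjective⟩⟩
  · exact (isClosed_discrete ({1} : Set (QQ s))).preimage (cont_q (s := s))
  · intro x hx y hy
    exact comm_of_q_one hx hy
  · rw [Nat.card_eq_fintype_card, QuaternionGroup.card]
    ring

end

end Pool.Agent.Results.MP_427463_al.AllQuaternion
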